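import Pool.Agent.T6.H3.SigThree.B
import Pool.Agent.T6.H3.SigThree.C
import Pool.Agent.T6.H3.SigThree.E

/-!
# MP_cec416_nt: the structure of the solutions of `σ₃(n) = σ₃(n + 2)`

The first part gives the local and size restrictions on a solution, the second bounds the number
of solutions `n = a p`, `n + 2 = b q` (`p ∤ a`, `q ∤ b` primes) with small cofactors `a b ≤ z`.
-/

set_option autoImplicit false

open ArithmeticFunction

namespace Pool.Agent.Results.MP_cec416_nt.SolutionStructure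

theorem result :
    (∀ n : ℕ, 8000 ≤ n → sigma 3 n = sigma 3 (n + 2) →
      n % 6 = 5 ∧ Nat.Coprime (n * (n + 2)) 210 ∧ 36 ∣ sigma 3 n ∧
      ¬ n.Prime ∧ ¬ (n + 2).Prime ∧
      ∀ p q : ℕ, p.Prime → q.Prime → p ∣ n → q ∣ n + 2 →
        (p * q) ^ 3 ≤ 9 * (n ^ 2 * (n + 2) ^ 3)) ∧
    ∀ (z : ℕ) (S : Finset ℕ),
      (∀ n ∈ S, 0 < n ∧ sigma 3 n = sigma 3 (n + 2) ∧
        ∃ a b p q : ℕ, p.Prime ∧ q.Prime ∧ ¬ p ∣ a ∧ ¬ q ∣ b ∧ n = a * p ∧ n + 2 = b * q ∧
          a * b ≤ z) →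
      S.card ≤ 3 * ∑ a ∈ Finset.Icc 1 z, z / a := by
  constructor
  · intro n hn h
    obtain ⟨hco, h6⟩ := H3.SigThree.structure_large n hn h
    have h9 : 9 ∣ sigma 3 n := H3.SigThree.nine_dvd n (by omega)
    have h4 : 4 ∣ sigma 3 n := by
      rcases (by omega : n % 4 = 3 ∨ (n + 2) % 4 = 3) with h1 | h1
      · exact H3.SigThree.four_dvd n h1
      · rw [h]; exact H3.SigThree.four_dvd (n + 2) h1
    refine ⟨h6, hco, Nat.Coprime.mul_dvd_of_dvd_of_dvd (by norm_num : Nat.Coprime 4 9) h4 h9,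
      ?_, ?_, ?_⟩
    · intro hp
      have h1 := H3.SigThree.prime_sig n hp
      have h2 := H3.SigThree.sig_ge (n + 2) (by omega)
      rw [← h, h1] at h2
      nlinarith [sq_nonneg n]
    · intro hp
      have h1 := H3.SigThree.prime_sig (n + 2) hp
      rw [h, h1] at h9
      obtain ⟨k, hk⟩ : ∃ k, n = 3 * k + 2 := ⟨n / 3, by omega⟩
      obtain ⟨c, hc⟩ := h9
      have e : (n + 2) ^ 3 + 1 = 9 * (3 * k ^ 3 + 12 * k ^ 2 + 16 * k + 7) + 2 := by
        rw [hk]; ring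
      omega
    · intro p q hp hq hpn hqn
      exact H3.SigThree.size_all n p q hn (by omega) hp hq hpn hqn h
  · intro z S hS
    refine H3.SigThree.count z S fun n hn => ?_
    obtain ⟨h0, h1, a, b, p, q, h2, h3, h4, h5, h6, h7, h8⟩ := hS n hn
    exact ⟨a, b, p, q, h2, h3, h4, h5, h6, h7, h8, h0, h1⟩

end Pool.Agent.Results.MP_cec416_nt.SolutionStructure
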